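import Mathlib

set_option autoImplicit false

namespace Pool.Agent.Results.MP_492578_lc.NotFP

open Polynomial Matrix

def PFAComputable (L : ℕ → ℝ) : Prop :=
  ∃ (m : ℕ) (i : Fin m → ℝ) (δ : Matrix (Fin m) (Fin m) ℝ) (o : Fin m → ℝ),
    (∀ q, 0 ≤ i q) ∧ ∑ q, i q = 1 ∧ (∀ q q', 0 ≤ δ q q') ∧ (∀ q, ∑ q', δ q q' = 1) ∧
    (∀ q, 0 ≤ o q ∧ o q ≤ 1) ∧ ∀ n, L n = i ⬝ᵥ (δ ^ n *ᵥ o)

def IsD (p : ℝ[X]) : Prop := (∀ n, 0 ≤ p.coeff n) ∧ p.eval 1 = 1

noncomputable def hat (L : ℕ → ℝ) (p : ℝ[X]) : ℝ := p.sum fun n r => r * L n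

def Syn (L : ℕ → ℝ) (p q : ℝ[X]) : Prop :=
  ∀ i j : ℕ, hat L (X ^ i * p * X ^ j) = hat L (X ^ i * q * X ^ j)

inductive Tm (G : Type)
  | var : G → Tm G
  | one : Tm G
  | mul : Tm G → Tm G → Tm G
  | cv : unitInterval → Tm G → Tm G → Tm G

open Tm in
inductive Eqv {G : Type} (R : Set (Tm G × Tm G)) : Tm G → Tm G → Prop
  | rel (s t : Tm G) : (s, t) ∈ R → Eqv R s t
  | refl (s : Tm G) : Eqv R s s
  | symm (s t : Tm G) : Eqv R s t → Eqv R t s
  | trans (s t u : Tm G) : Eqv R s t → Eqv R t u → Eqv R s u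
  | mul_congr (s s' t t' : Tm G) : Eqv R s s' → Eqv R t t' → Eqv R (mul s t) (mul s' t')
  | cv_congr (r : unitInterval) (s s' t t' : Tm G) :
      Eqv R s s' → Eqv R t t' → Eqv R (cv r s t) (cv r s' t')
  | mul_assoc (x y z : Tm G) : Eqv R (mul (mul x y) z) (mul x (mul y z))
  | one_mul (x : Tm G) : Eqv R (mul one x) x
  | mul_one (x : Tm G) : Eqv R (mul x one) x
  | mul_cv (r : unitInterval) (x y z : Tm G) : Eqv R (mul x (cv r y z)) (cv r (mul x y) (mul x z))
  | cv_mul (r : unitInterval) (x y z : Tm G) : Eqv R (mul (cv r x y) z) (cv r (mul x z) (mul y z))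
  | cv_one (x y : Tm G) : Eqv R (cv 1 x y) x
  | cv_self (r : unitInterval) (x : Tm G) : Eqv R (cv r x x) x
  | cv_comm (r : unitInterval) (x y : Tm G) : Eqv R (cv r x y) (cv (unitInterval.symm r) y x)
  | cv_assoc (r s t : unitInterval) (x y z : Tm G) : (t : ℝ) * (1 - r * s) = s * (1 - r) →
      Eqv R (cv s (cv r x y) z) (cv (r * s) x (cv t y z))

noncomputable def ev {G : Type} (γ : G → ℝ[X]) : Tm G → ℝ[X]
  | .var g => γ g
  | .one => 1
  | .mul s t => ev γ s * ev γ t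
  | .cv r s t => C (r : ℝ) * ev γ s + C (1 - (r : ℝ)) * ev γ t

def SynFP (L : ℕ → ℝ) : Prop :=
  ∃ (G : Type) (_ : Finite G) (R : Set (Tm G × Tm G)) (γ : G → ℝ[X]), R.Finite ∧
    (∀ g, IsD (γ g)) ∧ (∀ p, IsD p → ∃ s, Syn L (ev γ s) p) ∧
    ∀ s t, Syn L (ev γ s) (ev γ t) ↔ Eqv R s t

noncomputable def L0 (n : ℕ) : ℝ := ((1 / 2) ^ n + (1 / 4) ^ n) / 2

theorem pfa : PFAComputable L0 := by
  refine ⟨3, ![1 / 2, 1 / 2, 0], !![1 / 2, 0, 1 / 2; 0, 1 / 4, 3 / 4; 0, 0, 1], ![1, 1, 0],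
    fun q => by fin_cases q <;> norm_num, by simp [Fin.sum_univ_three]; norm_num,
    fun q q' => by fin_cases q <;> fin_cases q' <;> norm_num,
    fun q => by fin_cases q <;> simp [Fin.sum_univ_three] <;> norm_num,
    fun q => by fin_cases q <;> norm_num, fun n => ?_⟩
  have : (!![1 / 2, 0, 1 / 2; 0, 1 / 4, 3 / 4; 0, 0, 1] : Matrix (Fin 3) (Fin 3) ℝ) ^ n *ᵥ
      ![1, 1, 0] = ![(1 / 2) ^ n, (1 / 4) ^ n, 0] := by
    induction n with
    | zero => simp
    | succ n ih =>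
      rw [pow_succ', ← Matrix.mulVec_mulVec, ih]
      ext q
      fin_cases q <;> simp [Matrix.mulVec, dotProduct, Fin.sum_univ_three, pow_succ] <;> ring
  rw [this]
  simp [L0, dotProduct, Fin.sum_univ_three]
  ring

def A (p q : ℝ[X]) : Prop := p.eval (1 / 2) = q.eval (1 / 2) ∧ p.eval (1 / 4) = q.eval (1 / 4)

theorem hat0 (p : ℝ[X]) : hat L0 p = (p.eval (1 / 2) + p.eval (1 / 4)) / 2 := by
  simp only [hat, eval_eq_sum, Polynomial.sum, L0, ← Finset.sum_add_distrib, Finset.sum_div]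
  exact Finset.sum_congr rfl fun _ _ => by ring

theorem syn_iff (p q : ℝ[X]) : Syn L0 p q ↔ A p q := by
  simp only [Syn, hat0, eval_mul, eval_pow, eval_X, A]
  constructor
  · intro h
    have a := h 0 0
    have b := h 1 0
    norm_num at a b
    constructor <;> linarith
  · rintro ⟨a, b⟩ i j
    rw [a, b]

theorem single {p : ℝ[X]} (hp : IsD p) (j : ℕ) (h : ∀ i, p.coeff i ≠ 0 → i = j) : p = X ^ j := by
  have e : p = C (p.coeff j) * X ^ j := by
    ext i
    rw [coeff_C_mul, coeff_X_pow]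
    split_ifs with c
    · simp [c]
    · by_contra k
      exact c (h i (by simpa using k))
  have := hp.2
  rw [e] at this ⊢
  simp only [eval_mul, eval_C, eval_pow, eval_X, one_pow, mul_one] at this
  rw [this]
  simp

theorem extreme {q : ℝ[X]} (hq : IsD q) (j : ℕ) (h : A (X ^ j) q) : q = X ^ j := by
  refine single hq j fun i hi => ?_
  obtain ⟨a, b⟩ := h
  have c := hq.2
  simp only [eval_pow, eval_X] at a b
  simp only [eval_eq_sum, Polynomial.sum, one_pow, mul_one] at a b c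
  have z : ∑ n ∈ q.support, q.coeff n * (((1 : ℝ) / 2) ^ n - (1 / 2) ^ j) ^ 2 = 0 := by
    have e : ∀ n : ℕ, ((1 : ℝ) / 4) ^ n = ((1 / 2) ^ n) ^ 2 := fun n => by
      rw [← pow_mul, mul_comm, pow_mul]
      norm_num
    have : ∀ n ∈ q.support, q.coeff n * (((1 : ℝ) / 2) ^ n - (1 / 2) ^ j) ^ 2 =
        q.coeff n * (1 / 4) ^ n - 2 * (1 / 2) ^ j * (q.coeff n * (1 / 2) ^ n) +
          (1 / 4) ^ j * q.coeff n := fun n _ => by rw [e, e]; ring
    rw [Finset.sum_congr rfl this, Finset.sum_add_distrib, Finset.sum_sub_distrib,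
      ← Finset.mul_sum, ← Finset.mul_sum, ← a, ← b, c, e]
    ring
  have := (Finset.sum_eq_zero_iff_of_nonneg fun n _ =>
    mul_nonneg (hq.1 n) (sq_nonneg _)).1 z i (mem_support_iff.2 hi)
  have := sub_eq_zero.1 (pow_eq_zero_iff two_ne_zero |>.1 ((mul_eq_zero.1 this).resolve_left hi))
  exact pow_right_injective₀ (by norm_num) (by norm_num) this

theorem IsD.mul {p q : ℝ[X]} (hp : IsD p) (hq : IsD q) : IsD (p * q) :=
  ⟨fun n => by
    rw [coeff_mul]
    exact Finset.sum_nonneg fun _ _ => mul_nonneg (hp.1 _) (hq.1 _), by simp [hp.2, hq.2]⟩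

theorem ev_D {G : Type} {γ : G → ℝ[X]} (h : ∀ g, IsD (γ g)) (s : Tm G) : IsD (ev γ s) := by
  induction s with
  | var g => exact h g
  | one => exact ⟨fun n => by simp only [ev, coeff_one]; split_ifs <;> norm_num, by simp [ev]⟩
  | mul s t a b => exact a.mul b
  | cv r s t a b =>
    refine ⟨fun n => ?_, by simp [ev, a.2, b.2]⟩
    simp only [ev, coeff_add, coeff_C_mul]
    exact add_nonneg (mul_nonneg r.2.1 (a.1 n)) (mul_nonneg (sub_nonneg.2 r.2.2) (b.1 n))

def Thin (N : ℕ) (p : ℝ[X]) : Prop :=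
  ∀ i j, p.coeff i ≠ 0 → p.coeff j ≠ 0 → i < j → i + N ≤ j

theorem thin_mul {N : ℕ} {p q : ℝ[X]} (hp : IsD p) (hq : IsD q) (h : Thin N (p * q)) :
    Thin N p := by
  obtain ⟨k, hk⟩ : ∃ k, q.coeff k ≠ 0 := by
    by_contra c
    push Not at c
    have : q = 0 := Polynomial.ext fun n => by simp [c]
    have e := hq.2
    simp [this] at e
  have t : ∀ i, p.coeff i ≠ 0 → (p * q).coeff (i + k) ≠ 0 := fun i hi => by
    rw [coeff_mul]
    refine (lt_of_lt_of_le (mul_pos ((hp.1 i).lt_of_ne' hi) ((hq.1 k).lt_of_ne' hk)) ?_).ne'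
    exact Finset.single_le_sum (f := fun x : ℕ × ℕ => p.coeff x.1 * q.coeff x.2) (a := (i, k))
      (fun _ _ => mul_nonneg (hp.1 _) (hq.1 _)) (by simp)
  intro i j hi hj hij
  have := h _ _ (t i hi) (t j hj) (by omega)
  omega

theorem thin_cv {N : ℕ} {p q : ℝ[X]} {a b : ℝ} (hp : IsD p) (hq : IsD q) (ha : 0 < a) (hb : 0 ≤ b)
    (h : Thin N (C a * p + C b * q)) : Thin N p := by
  have t : ∀ i, p.coeff i ≠ 0 → (C a * p + C b * q).coeff i ≠ 0 := fun i hi => by
    rw [coeff_add, coeff_C_mul, coeff_C_mul]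
    exact (add_pos_of_pos_of_nonneg (mul_pos ha ((hp.1 i).lt_of_ne' hi))
      (mul_nonneg hb (hq.1 i))).ne'
  exact fun i j hi hj => h i j (t i hi) (t j hj)

theorem inv {G : Type} {γ : G → ℝ[X]} (hγ : ∀ g, IsD (γ g)) {R : Set (Tm G × Tm G)} {N : ℕ}
    (hR : ∀ s t, (s, t) ∈ R → Thin N (ev γ s) ∨ Thin N (ev γ t) → ev γ s = ev γ t)
    {s t : Tm G} (h : Eqv R s t) : Thin N (ev γ s) ∨ Thin N (ev γ t) → ev γ s = ev γ t := by
  have D := ev_D hγ
  induction h with
  | rel s t h => exact hR s t h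
  | refl s => exact fun _ => rfl
  | symm s t _ ih => exact fun h => (ih h.symm).symm
  | trans s t u _ _ a b =>
    rintro (h | h)
    · have e := a (.inl h)
      exact e.trans (b (.inl (e ▸ h)))
    · have e := b (.inr h)
      exact (a (.inr (e ▸ h))).trans e
  | mul_congr s s' t t' _ _ a b =>
    intro h
    simp only [ev] at h ⊢
    rw [a (h.imp (thin_mul (D _) (D _)) (thin_mul (D _) (D _))),
      b (h.imp (fun k => thin_mul (D _) (D _) (mul_comm (ev γ s) _ ▸ k))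
        (fun k => thin_mul (D _) (D _) (mul_comm (ev γ s') _ ▸ k)))]
  | cv_congr r s s' t t' _ _ a b =>
    intro h
    simp only [ev] at h ⊢
    have r0 := r.2.1
    have r1 := sub_nonneg.2 r.2.2
    congr 1
    · rcases r0.eq_or_lt with c | c
      · simp [← c]
      · rw [a (h.imp (thin_cv (D _) (D _) c r1) (thin_cv (D _) (D _) c r1))]
    · rcases r1.eq_or_lt with c | c
      · simp [← c]
      · rw [b (h.imp (fun k => thin_cv (D _) (D _) c r0 (add_comm (C (r : ℝ) * ev γ s) _ ▸ k))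
          (fun k => thin_cv (D _) (D _) c r0 (add_comm (C (r : ℝ) * ev γ s') _ ▸ k)))]
  | cv_assoc r s t x y z h =>
    intro _
    have := congrArg (C : ℝ → ℝ[X]) h
    simp only [ev, Set.Icc.coe_mul, map_mul, map_sub, map_one] at this ⊢
    linear_combination (ev γ z - ev γ y) * this
  | _ =>
    intro _
    simp only [ev, unitInterval.coe_symm_eq, Set.Icc.coe_one, map_sub, map_one]
    ring

def pw {G : Type} (a : Tm G) : ℕ → Tm G
  | 0 => .one
  | n + 1 => .mul (pw a n) a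

theorem result : ∃ L : ℕ → ℝ, PFAComputable L ∧ ¬ SynFP L := by
  refine ⟨L0, pfa, ?_⟩
  rintro ⟨G, -, R, γ, hR, hγ, h1, h2⟩
  have D := ev_D hγ
  obtain ⟨M, hM⟩ := (hR.image fun p => (ev γ p.1).natDegree + (ev γ p.2).natDegree).bddAbove
  have key : ∀ p q : ℝ[X], IsD p → IsD q → A p q → p.natDegree ≤ M → Thin (M + 2) p → p = q := by
    intro p q hp hq h hd ht
    have e : p = X ^ p.natDegree := single hp _ fun i hi => by
      by_contra c
      have h0 : p ≠ 0 := fun z => hi (by simp [z])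
      have := ht i _ hi (mt leadingCoeff_eq_zero.1 h0) ((le_natDegree_of_ne_zero hi).lt_of_ne c)
      omega
    rw [e] at h
    exact e.trans (extreme hq _ h).symm
  obtain ⟨a, ha⟩ := h1 X ⟨fun n => by rw [coeff_X]; split_ifs <;> norm_num, by simp⟩
  rw [syn_iff] at ha
  have ea : ev γ a = X := by
    simpa using extreme (D a) 1 ⟨by simpa using ha.1.symm, by simpa using ha.2.symm⟩
  have ep : ∀ n, ev γ (pw a n) = X ^ n := fun n => by
    induction n with
    | zero => simp [pw, ev]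
    | succ n ih => simp [pw, ev, ih, ea, pow_succ]
  set u : ℝ := (1 / 2) ^ (M + 2) with hu
  have u0 : 0 < u := by positivity
  have u1 : u ≤ 1 / 4 := by
    have : ((1 : ℝ) / 2) ^ M ≤ 1 := pow_le_one₀ (by norm_num) (by norm_num)
    rw [hu, pow_add]
    linarith
  have u2 : ((1 : ℝ) / 4) ^ (M + 2) = u ^ 2 := by
    rw [hu, ← pow_mul, mul_comm, pow_mul]
    norm_num
  have u3 : 0 < 1 - u ^ 2 := by nlinarith
  have a0 : 0 < u * (1 - 2 * u) / (2 * (1 - u ^ 2)) := div_pos (mul_pos u0 (by linarith)) (by linarith)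
  let α : unitInterval := ⟨u * (1 - 2 * u) / (2 * (1 - u ^ 2)), a0.le,
    (div_le_one (by linarith)).2 (by nlinarith)⟩
  let β : unitInterval := ⟨u * (2 - u) / (1 - u ^ 2), div_nonneg (by nlinarith) u3.le,
    (div_le_one u3).2 (by nlinarith)⟩
  have e := inv hγ (N := M + 2) (fun s t h k => by
    have b : (ev γ s).natDegree + (ev γ t).natDegree ≤ M := hM ⟨_, h, rfl⟩
    have c := (syn_iff _ _).1 ((h2 s t).2 (.rel _ _ h))
    rcases k with k | k
    · exact key _ _ (D _) (D _) c (by omega) k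
    · exact (key _ _ (D _) (D _) ⟨c.1.symm, c.2.symm⟩ (by omega) k).symm)
    ((h2 (.cv α .one (pw a (M + 2))) (.cv β a (pw a (M + 2 + 1)))).1 (by
      rw [syn_iff]
      simp only [A, ev, ep, ea, eval_add, eval_mul, eval_C, eval_pow, eval_X, eval_one,
        pow_succ _ (M + 2), ← hu, u2, α, β]
      constructor <;> field_simp <;> ring)) (.inl (by
      intro i j hi hj hij
      simp only [ev, ep, coeff_add, coeff_C_mul, coeff_one, coeff_X_pow] at hi hj
      by_cases c : j = M + 2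
      · by_cases d : i = 0
        · omega
        · rw [if_neg d, if_neg (by omega)] at hi
          simp at hi
      · rw [if_neg (by omega), if_neg c] at hj
        simp at hj))
  have := congrArg (fun p => p.coeff 0) e
  simp only [ev, ep, ea, coeff_add, coeff_C_mul, coeff_one, coeff_X_pow, coeff_X_zero] at this
  simp at this
  exact a0.ne' (congrArg Subtype.val this)

end Pool.Agent.Results.MP_492578_lc.NotFP
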